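import Pool.Agent.Results.MP_e16db3_al.Undecidable

/-!
# Contraction of wreath recursions: one exponent

The earlier result says that no algorithm decides, from the finite data of a wreath recursion,
whether the group it defines is contracting.  Here there are four generators over a fixed alphabet,
and all the data are fixed except for one exponent `k`: one of the words is `s b ^ k` for two
generators `s, b`.  Every recursively enumerable set is many-one reduced to the set of the `k` for
which the group is contracting; so this set is not decidable and its complement is not recursively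
enumerable.

The recursions are those of the earlier proof, for a universal machine; the exponent is the code of
its input.
-/

set_option autoImplicit false

namespace Pool.Agent.Results.MP_e16db3_al.OneExponent

open Pool.Agent.Helper522 Pool.Agent.Results.MP_e16db3_al.Undecidable
open Rec Machine Sim Contract
open Turing Turing.PartrecToTM2
open Nat.Partrec (Code)

/-- A fixed residue-affine system whose halting set from computable starting pairs is universal. -/
theorem exists_sys' : ∃ (T : Sys) (r : ℕ → ℕ), Computable r ∧
    ∀ n, Halts T 0 (r n) ↔ (u n).Dom := by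
  obtain ⟨Λ, i1, i2, M, hM⟩ := exists_machine
  have hK : Finite PartrecToTM2.K' := by
    let f : PartrecToTM2.K' → Fin 4 := fun k => match k with
      | .main => 0 | .rev => 1 | .aux => 2 | .stack => 3
    apply Finite.of_injective f
    intro x y h
    cases x <;> cases y <;> simp_all [f]
  have hΓ : Finite PartrecToTM2.Γ' := by
    let f : PartrecToTM2.Γ' → Fin 4 := fun k => match k with
      | .consₗ => 0 | .cons => 1 | .bit0 => 2 | .bit1 => 3
    apply Finite.of_injective f
    intro x y h
    cases x <;> cases y <;> simp_all [f]
  have hfin : Finite (TM2to1.Γ' PartrecToTM2.K' (fun _ => PartrecToTM2.Γ')) := by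
    have : Finite (PartrecToTM2.K' → Option PartrecToTM2.Γ') := Pi.finite
    exact Finite.instProd
  obtain ⟨T, κ, B, c₀, hT⟩ := exists_sys_of_machine M
  refine ⟨T, fun n => κ (sym true .cons) + c₀ +
    B * numL κ B ((trNat n).reverse.map (sym false)), ?_, ?_⟩
  · have h1 : Computable (fun n : ℕ => ((trNat n).map (fun a => κ (sym false a))).reverse) :=
      Computable.list_reverse.comp (digits_computable _)
    have h2 : Computable (fun l : List ℕ => l.foldr (fun a n => a + B * n) 0) := by
      apply Primrec.to_comp
      refine Primrec.list_foldr (h := fun _ p => p.1 + B * p.2) Primrec.id (Primrec.const 0) ?_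
      exact Primrec.nat_add.comp (Primrec.fst.comp Primrec.snd)
        (Primrec.nat_mul.comp (Primrec.const B) (Primrec.snd.comp Primrec.snd))
    have h3 : ∀ n, numL κ B ((trNat n).reverse.map (sym false)) =
        (((trNat n).map (fun a => κ (sym false a))).reverse).foldr (fun a n => a + B * n) 0 := by
      intro n
      unfold numL
      rw [← List.map_reverse, List.foldr_map, List.foldr_map]
    have h4 := h2.comp h1
    have h5 : Computable (fun n : ℕ => numL κ B ((trNat n).reverse.map (sym false))) :=
      h4.of_eq (fun n => (h3 n).symm)
    exact (Primrec.nat_add.to_comp.comp (Computable.const _)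
      (Primrec.nat_mul.to_comp.comp (Computable.const B) h5))
  · intro n
    have := hT (sym true .cons :: (trNat n).reverse.map (sym false))
    simp only [List.headI_cons, List.tail_cons] at this
    rw [← this]
    exact hM n

/-- Every recursively enumerable set is many-one reducible to the halting set. -/
theorem universal {S : ℕ → Prop} (hS : REPred S) : ∃ g : ℕ → ℕ, Computable g ∧
    ∀ n, S n ↔ (u (g n)).Dom := by
  have hf : Partrec (fun m : ℕ => (Part.assert (S (Nat.unpair m).1) fun _ => Part.some ()).map
      (fun _ => 0)) :=
    Partrec.map (Partrec.comp hS (Computable.fst.comp Computable.unpair)) (Computable.const 0).to₂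
  obtain ⟨c, hc⟩ := Code.exists_code.1 (Partrec.nat_iff.1 hf)
  refine ⟨fun n => Encodable.encode (Code.curry c n),
    Computable.encode.comp (Code.primrec₂_curry.comp (Primrec.const c) Primrec.id).to_comp,
    fun n => ?_⟩
  unfold u
  rw [Denumerable.ofNat_encode, Code.eval_curry, hc]
  simp [Part.map, Part.assert]

/-- The data `D` with one word changed: the word at the generator `s₀` and the letter `x₀` is
`i j ^ k`, for two generators `i, j`. -/
def setWord {d m : ℕ} (D : FinData d m) (s₀ : Fin m) (x₀ : Fin d) (i j : Fin m) (k : ℕ) :
    FinData d m where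
  perm := D.perm
  word s x := if s = s₀ ∧ x = x₀ then (i, true) :: List.replicate k (j, true) else D.word s x

/-- The group defined by the data `D` with the word `i j ^ k` at the place `(s₀, x₀)` is
contracting. -/
def ContractingAt {d m : ℕ} (D : FinData d m) (s₀ : Fin m) (x₀ : Fin d) (i j : Fin m) (k : ℕ) :
    Prop :=
  Contracting (induced (setWord D s₀ x₀ i j k).Phi)

theorem family (T : Sys) : ∃ (d : ℕ) (D : FinData d 4) (s₀ : Fin 4) (x₀ : Fin d) (i j : Fin 4),
    2 ≤ d ∧ ∀ k, ContractingAt D s₀ x₀ i j k ↔ Halts T 0 k := by
  classical
  let eX : Lt T ⊕ Bool ≃ Fin (Fintype.card (Lt T ⊕ Bool)) := Fintype.equivFin _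
  let eS : Gen ⊕ Unit ≃ Fin 4 := Fintype.equivFinOfCardEq rfl
  have hd : 2 ≤ Fintype.card (Lt T ⊕ Bool) := by
    rw [Fintype.card_sum, Fintype.card_bool]
    omega
  choose wd hwd using fun g : FreeGroup (Gen ⊕ Unit) => exists_word g
  let D : FinData (Fintype.card (Lt T ⊕ Bool)) 4 :=
    { perm := fun s => (eX.symm.trans ((drec T 1).perm (eS.symm s))).trans eX
      word := fun s x => (wd ((drec T 1).sec (eS.symm s) (eX.symm x))).map
        fun p => (eS p.1, p.2) }
  refine ⟨_, D, eS (Sum.inr ()), eX (Sum.inr true), eS (Sum.inl Gen.s), eS (Sum.inl Gen.b), hd,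
    fun k => ?_⟩
  have hren : Ren (drec T (W 0 k))
      (⟨(setWord D (eS (Sum.inr ())) (eX (Sum.inr true)) (eS (Sum.inl Gen.s))
          (eS (Sum.inl Gen.b)) k).perm,
        fun s x => FreeGroup.mk ((setWord D (eS (Sum.inr ())) (eX (Sum.inr true))
          (eS (Sum.inl Gen.s)) (eS (Sum.inl Gen.b)) k).word s x)⟩ : Rec _ _) eX eS := by
    intro s x
    refine ⟨?_, ?_⟩
    · simp only [setWord, D, Equiv.trans_apply, Equiv.symm_apply_apply]
      rfl
    · by_cases h : s = Sum.inr () ∧ x = Sum.inr true
      · obtain ⟨rfl, rfl⟩ := h
        simp only [setWord, and_self, if_true]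
        change _ = FreeGroup.map eS (FreeGroup.map Sum.inl (W 0 k))
        rw [W_zero, FreeGroup.map.mk, FreeGroup.map.mk]
        simp
      · have h' : ¬ (eS s = eS (Sum.inr ()) ∧ eX x = eX (Sum.inr true)) := by
          simpa only [EmbeddingLike.apply_eq_iff_eq] using h
        simp only [setWord, if_neg h', D, Equiv.symm_apply_apply]
        rw [← FreeGroup.map.mk, hwd]
        congr 1
        rcases s with s | ⟨⟩ <;> rcases x with x | _ | _ <;> first | rfl | simp at h
  unfold ContractingAt
  rw [← contr_iff_halts, hren.contr_iff, ← contracting_iff]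
  rfl

/-- **One exponent.** There are an alphabet of `d ≥ 2` letters, finite data `D` of a wreath
recursion with four generators, a generator `s₀`, a letter `x₀` and generators `i, j` such that, when
the word of `D` at `s₀` and `x₀` is replaced by `i j ^ k`,

* every recursively enumerable set is many-one reducible to the set of the `k` for which the group
  defined by the data is contracting;
* no algorithm decides, given `k`, whether this group is contracting;
* the set of the `k` for which it is not contracting is not recursively enumerable. -/
theorem result : ∃ (d : ℕ) (D : FinData d 4) (s₀ : Fin 4) (x₀ : Fin d) (i j : Fin 4), 2 ≤ d ∧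
    (∀ W : ℕ → Prop, REPred W → ∃ f : ℕ → ℕ, Computable f ∧
      ∀ n, W n ↔ ContractingAt D s₀ x₀ i j (f n)) ∧
    (¬ ComputablePred fun k => ContractingAt D s₀ x₀ i j k) ∧
    ¬ REPred fun k => ¬ ContractingAt D s₀ x₀ i j k := by
  obtain ⟨T, r, hr, hT⟩ := exists_sys'
  obtain ⟨d, D, s₀, x₀, i, j, hd, h⟩ := family T
  have hre : REPred fun n => (u n).Dom := u_partrec.dom_re
  have hco : ¬ REPred fun k => ¬ ContractingAt D s₀ x₀ i j k := by
    intro h1
    refine u_not_computable (ComputablePred.computable_iff_re_compl_re'.2 ⟨hre, ?_⟩)
    have h2 : REPred fun n => ¬ ContractingAt D s₀ x₀ i j (r n) := Partrec.comp h1 hr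
    exact h2.of_eq fun n => by rw [h, hT]
  refine ⟨d, D, s₀, x₀, i, j, hd, ?_, fun h1 => hco h1.not.to_re, hco⟩
  intro W hW
  obtain ⟨g, hg, hWg⟩ := universal hW
  exact ⟨fun n => r (g n), hr.comp hg, fun n => by rw [h, hT, ← hWg]⟩

end Pool.Agent.Results.MP_e16db3_al.OneExponent
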